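import Pool.Agent.N352.PJ.Def

/-!
# PJ/EXP: the inequality for the exponents (helper401)
-/

set_option autoImplicit false

open Finset

namespace Pool.Agent.N401.PJ

open Pool.Agent.N352.PJ

/-- from pairs of indices to double sums over natural numbers -/
theorem conv (n : ℕ) (c : ℕ → ℕ → Prop) [∀ i j, Decidable (c i j)] (f : ℕ → ℕ → ℤ) :
    ∑ p ∈ (univ : Finset (Fin n × Fin n)).filter (fun p => c p.1 p.2), f p.1 p.2 =
      ∑ i ∈ range n, ∑ j ∈ range n, if c i j then f i j else 0 := by
  rw [Finset.sum_filter, Fintype.sum_prod_type, Finset.sum_range]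
  refine Finset.sum_congr rfl fun i _ => ?_
  rw [Finset.sum_range]

theorem sum_odd (g : ℕ) : ∑ j ∈ range g, (2 * j + 1) = g ^ 2 := by
  induction g with
  | zero => rfl
  | succ g ih => rw [sum_range_succ, ih]; ring

theorem sum_succ (n : ℕ) : 2 * ∑ j ∈ range n, (j + 1) = n * (n + 1) := by
  induction n with
  | zero => rfl
  | succ n ih => rw [sum_range_succ, mul_add, ih]; ring

/-- the number of pairs `i < j` with `i + j < 2 g` -/
theorem cardQ (g : ℕ) : ∑ i ∈ range (2 * g + 1), ∑ j ∈ range (2 * g + 1),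
    (if i < j ∧ i + j < 2 * g then (1 : ℤ) else 0) = (g : ℤ) ^ 2 := by
  have h1 : ∀ i, ∑ j ∈ range (2 * g + 1), (if i < j ∧ i + j < 2 * g then (1 : ℤ) else 0) =
      ((2 * g - i - i - 1 : ℕ) : ℤ) := by
    intro i
    rw [← Finset.sum_filter, Finset.sum_const, nsmul_eq_mul, mul_one]
    congr 1
    have : (range (2 * g + 1)).filter (fun j => i < j ∧ i + j < 2 * g) = Ioo i (2 * g - i) := by
      ext j
      rw [mem_filter, mem_range, mem_Ioo]
      omega
    rw [this, Nat.card_Ioo]
  simp_rw [h1]
  rw [← Nat.cast_sum]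
  have h2 : ∑ i ∈ range (2 * g + 1), (2 * g - i - i - 1) = ∑ i ∈ range g, (2 * g - i - i - 1) := by
    symm
    apply Finset.sum_subset
    · intro i hi
      rw [mem_range] at hi ⊢
      omega
    · intro i _ hi
      rw [mem_range] at hi
      omega
  have h3 : ∑ i ∈ range g, (2 * g - i - i - 1) = ∑ i ∈ range g, (2 * i + 1) := by
    rw [← Finset.sum_range_reflect (fun i => 2 * i + 1) g]
    refine Finset.sum_congr rfl fun i hi => ?_
    rw [mem_range] at hi
    omega
  rw [h2, h3, sum_odd]
  push_cast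
  ring

/-- the number of pairs `i ≤ j`, `(i, j) ≠ (g, g)` -/
theorem cardP (g : ℕ) : ∑ i ∈ range (2 * g + 1), ∑ j ∈ range (2 * g + 1),
    (if i ≤ j ∧ ¬ (i = g ∧ j = g) then (1 : ℤ) else 0) = (dd g : ℤ) := by
  have h1 : ∀ i ∈ range (2 * g + 1), ∑ j ∈ range (2 * g + 1),
      (if i ≤ j ∧ ¬ (i = g ∧ j = g) then (1 : ℤ) else 0) =
      ((2 * g + 1 - i : ℕ) : ℤ) - if i = g then 1 else 0 := by
    intro i hi
    have h2 : ∀ j, (if i ≤ j ∧ ¬ (i = g ∧ j = g) then (1 : ℤ) else 0) =
        (if i ≤ j then (1 : ℤ) else 0) - if j = g then (if i = g then 1 else 0) else 0 := by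
      intro j
      by_cases h3 : i = g
      · by_cases h4 : j = g
        · subst h3; subst h4; simp
        · simp [h4]
      · simp [h3]
    simp_rw [h2]
    rw [Finset.sum_sub_distrib, Finset.sum_ite_eq' (range (2 * g + 1)) g,
      if_pos (mem_range.2 (by omega)), ← Finset.sum_filter, Finset.sum_const, nsmul_eq_mul,
      mul_one]
    congr 2
    have : (range (2 * g + 1)).filter (fun j => i ≤ j) = Ico i (2 * g + 1) := by
      ext j
      rw [mem_filter, mem_range, mem_Ico]
      omega
    rw [this, Nat.card_Ico]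
  rw [Finset.sum_congr rfl h1, Finset.sum_sub_distrib, Finset.sum_ite_eq' (range (2 * g + 1)) g,
    if_pos (mem_range.2 (by omega)), ← Nat.cast_sum]
  have h3 : ∑ i ∈ range (2 * g + 1), (2 * g + 1 - i) = ∑ i ∈ range (2 * g + 1), (i + 1) := by
    rw [← Finset.sum_range_reflect (fun i => i + 1) (2 * g + 1)]
    refine Finset.sum_congr rfl fun i hi => ?_
    rw [mem_range] at hi
    omega
  have h4 := sum_succ (2 * g + 1)
  rw [h3]
  have h5 : (2 : ℤ) * ((∑ i ∈ range (2 * g + 1), (i + 1) : ℕ) : ℤ) =
      (2 * g + 1) * (2 * g + 1 + 1) := by exact_mod_cast h4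
  unfold dd
  push_cast at h5 ⊢
  linarith

theorem exp_ineq : Pool.Agent.N352.PJ.S_EXP := by
  classical
  intro g N w hw hr
  -- the function on the natural numbers
  obtain ⟨s, hs⟩ : ∃ s : ℕ → ℤ, ∀ i : Fin (2 * g + 1), w i = - s i := by
    refine ⟨fun n => if h : n < 2 * g + 1 then - w ⟨n, h⟩ else 0, fun i => ?_⟩
    simp [i.2]
  have hanti : ∀ i j : ℕ, i ≤ j → j ≤ 2 * g → s j ≤ s i := by
    intro i j hij hj
    have h1 := hw.mono (show (⟨i, by omega⟩ : Fin (2 * g + 1)) ≤ ⟨j, by omega⟩ from hij)
    rw [hs, hs] at h1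
    simpa using h1
  have hrev : ∀ i : ℕ, i ≤ 2 * g → s (2 * g - i) = - s i := by
    intro i hi
    have h1 := hw.anti ⟨i, by omega⟩
    rw [hs, hs, Fin.val_rev] at h1
    have h2 : 2 * g + 1 - (i + 1) = 2 * g - i := by omega
    simp only [h2] at h1
    linarith
  have hg : s g = 0 := by
    have h1 := hrev g (by omega)
    have h2 : 2 * g - g = g := by omega
    rw [h2] at h1
    linarith
  have hgap : ∀ i : ℕ, i + 1 ≤ 2 * g → s i ≤ s (i + 1) + 2 * N := by
    intro i hi
    have h1 := hr.gap ⟨i, by omega⟩ ⟨i + 1, by omega⟩ rfl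
    rw [hs, hs] at h1
    simp only at h1
    linarith
  have hmid : ∀ i : ℕ, i + 1 = g → s i ≤ N := by
    intro i hi
    have h1 := hr.mid ⟨i, by omega⟩ hi
    rw [hs] at h1
    simpa using h1
  -- the exponents as double sums
  have hee : (ee g N w : ℤ) = ∑ i ∈ range (2 * g + 1), ∑ j ∈ range (2 * g + 1),
      if i ≤ j ∧ ¬ (i = g ∧ j = g) then
        (2 * N + 1 - (s i + s j)) + max (s i + s j - 2 * N - 1) 0 else 0 := by
    rw [← conv (2 * g + 1) (fun i j => i ≤ j ∧ ¬ (i = g ∧ j = g))
      (fun i j => (2 * N + 1 - (s i + s j)) + max (s i + s j - 2 * N - 1) 0)]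
    unfold ee
    push_cast
    refine Finset.sum_congr (by ext p; simp) fun p _ => ?_
    rw [hs, hs]
    omega
  have huu : (uu g w : ℤ) = ∑ i ∈ range (2 * g + 1), ∑ j ∈ range (2 * g + 1),
      if i < j ∧ i + j < 2 * g then (s i - s j + 1) else 0 := by
    rw [← conv (2 * g + 1) (fun i j => i < j ∧ i + j < 2 * g) (fun i j => s i - s j + 1)]
    unfold uu
    push_cast
    refine Finset.sum_congr (by ext p; simp) fun p hp => ?_
    rw [Finset.mem_filter] at hp
    have h1 := hanti p.1 p.2 (le_of_lt hp.2.1) (by have := p.2.2; omega)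
    rw [hs, hs]
    omega
  -- the symmetric sums
  have hP0 : ∑ i ∈ range (2 * g + 1), ∑ j ∈ range (2 * g + 1),
      (if i ≤ j ∧ ¬ (i = g ∧ j = g) then (s i + s j) else 0) = 0 := by
    rw [← conv (2 * g + 1) (fun i j => i ≤ j ∧ ¬ (i = g ∧ j = g)) (fun i j => s i + s j)]
    have h1 : ∑ p ∈ (univ : Finset (Fin (2 * g + 1) × Fin (2 * g + 1))).filter
        (fun p => (p.1 : ℕ) ≤ p.2 ∧ ¬ ((p.1 : ℕ) = g ∧ (p.2 : ℕ) = g)), (s p.1 + s p.2) =
        ∑ p ∈ (univ : Finset (Fin (2 * g + 1) × Fin (2 * g + 1))).filter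
        (fun p => (p.1 : ℕ) ≤ p.2 ∧ ¬ ((p.1 : ℕ) = g ∧ (p.2 : ℕ) = g)), -(s p.1 + s p.2) := by
      refine Finset.sum_nbij' (fun p => (Fin.rev p.2, Fin.rev p.1))
        (fun p => (Fin.rev p.2, Fin.rev p.1)) ?_ ?_ ?_ ?_ ?_
      · intro p hp
        rw [Finset.mem_filter] at hp ⊢
        have h2 := p.1.2
        have h3 := p.2.2
        simp only [Fin.val_rev, mem_univ, true_and] at hp ⊢
        omega
      · intro p hp
        rw [Finset.mem_filter] at hp ⊢
        have h2 := p.1.2
        have h3 := p.2.2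
        simp only [Fin.val_rev, mem_univ, true_and] at hp ⊢
        omega
      · intro p _; simp
      · intro p _; simp
      · intro p _
        have h2 := hrev p.1 (by have := p.1.2; omega)
        have h3 := hrev p.2 (by have := p.2.2; omega)
        simp only [Fin.val_rev]
        have h4 : 2 * g + 1 - ((p.1 : ℕ) + 1) = 2 * g - p.1 := by omega
        have h5 : 2 * g + 1 - ((p.2 : ℕ) + 1) = 2 * g - p.2 := by omega
        rw [h4, h5, h2, h3]
        ring
    rw [Finset.sum_neg_distrib] at h1
    linarith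
  have hQ0 : ∑ i ∈ range (2 * g + 1), ∑ j ∈ range (2 * g + 1),
      (if i < j ∧ i + j < 2 * g then s j else 0) = 0 := by
    rw [← conv (2 * g + 1) (fun i j => i < j ∧ i + j < 2 * g) (fun i j => s j)]
    have h1 : ∑ p ∈ (univ : Finset (Fin (2 * g + 1) × Fin (2 * g + 1))).filter
        (fun p => (p.1 : ℕ) < p.2 ∧ (p.1 : ℕ) + p.2 < 2 * g), s p.2 =
        ∑ p ∈ (univ : Finset (Fin (2 * g + 1) × Fin (2 * g + 1))).filter
        (fun p => (p.1 : ℕ) < p.2 ∧ (p.1 : ℕ) + p.2 < 2 * g), -s p.2 := by
      refine Finset.sum_nbij' (fun p => (p.1, Fin.rev p.2))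
        (fun p => (p.1, Fin.rev p.2)) ?_ ?_ ?_ ?_ ?_
      · intro p hp
        rw [Finset.mem_filter] at hp ⊢
        have h2 := p.1.2
        have h3 := p.2.2
        simp only [Fin.val_rev, mem_univ, true_and] at hp ⊢
        omega
      · intro p hp
        rw [Finset.mem_filter] at hp ⊢
        have h2 := p.1.2
        have h3 := p.2.2
        simp only [Fin.val_rev, mem_univ, true_and] at hp ⊢
        omega
      · intro p _; simp
      · intro p _; simp
      · intro p _
        have h3 := hrev p.2 (by have := p.2.2; omega)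
        simp only [Fin.val_rev]
        have h5 : 2 * g + 1 - ((p.2 : ℕ) + 1) = 2 * g - p.2 := by omega
        rw [h5, h3]
        ring
    rw [Finset.sum_neg_distrib] at h1
    linarith
  -- splitting
  have hee2 : (ee g N w : ℤ) = (2 * N + 1) * dd g + ∑ i ∈ range (2 * g + 1),
      ∑ j ∈ range (2 * g + 1), if i ≤ j ∧ ¬ (i = g ∧ j = g) then
        max (s i + s j - 2 * N - 1) 0 else 0 := by
    rw [hee, ← cardP, Finset.mul_sum, ← Finset.sum_add_distrib]
    have h1 : ∑ i ∈ range (2 * g + 1), ∑ j ∈ range (2 * g + 1),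
        (if i ≤ j ∧ ¬ (i = g ∧ j = g) then
          (2 * N + 1 - (s i + s j)) + max (s i + s j - 2 * N - 1) 0 else 0) =
        ∑ i ∈ range (2 * g + 1), ((2 * N + 1) * (∑ j ∈ range (2 * g + 1),
          if i ≤ j ∧ ¬ (i = g ∧ j = g) then (1 : ℤ) else 0) + ∑ j ∈ range (2 * g + 1),
          if i ≤ j ∧ ¬ (i = g ∧ j = g) then max (s i + s j - 2 * N - 1) 0 else 0) -
        ∑ i ∈ range (2 * g + 1), ∑ j ∈ range (2 * g + 1),
          (if i ≤ j ∧ ¬ (i = g ∧ j = g) then (s i + s j) else 0) := by
      rw [← Finset.sum_sub_distrib]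
      refine Finset.sum_congr rfl fun i _ => ?_
      rw [Finset.mul_sum, ← Finset.sum_add_distrib, ← Finset.sum_sub_distrib]
      refine Finset.sum_congr rfl fun j _ => ?_
      split_ifs <;> ring
    rw [h1, hP0, sub_zero]
  have huu2 : (uu g w : ℤ) = g ^ 2 + ∑ i ∈ range (2 * g + 1), ∑ j ∈ range (2 * g + 1),
      if i < j ∧ i + j < 2 * g then (s i + s j) else 0 := by
    have h1 : ∑ i ∈ range (2 * g + 1), ∑ j ∈ range (2 * g + 1),
        (if i < j ∧ i + j < 2 * g then (s i - s j + 1) else 0) =
        (∑ i ∈ range (2 * g + 1), ∑ j ∈ range (2 * g + 1),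
          if i < j ∧ i + j < 2 * g then (1 : ℤ) else 0) +
        (∑ i ∈ range (2 * g + 1), ∑ j ∈ range (2 * g + 1),
          if i < j ∧ i + j < 2 * g then (s i + s j) else 0) -
        2 * ∑ i ∈ range (2 * g + 1), ∑ j ∈ range (2 * g + 1),
          (if i < j ∧ i + j < 2 * g then s j else 0) := by
      rw [Finset.mul_sum, ← Finset.sum_add_distrib, ← Finset.sum_sub_distrib]
      refine Finset.sum_congr rfl fun i _ => ?_
      rw [Finset.mul_sum, ← Finset.sum_add_distrib, ← Finset.sum_sub_distrib]
      refine Finset.sum_congr rfl fun j _ => ?_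
      split_ifs <;> ring
    rw [huu, h1, hQ0, cardQ]
    ring
  -- the last term
  have hmin : ∑ i ∈ Finset.univ.filter (fun i : Fin (2 * g + 1) => (i : ℕ) < g), min (- w i) N =
      ∑ i ∈ range (2 * g + 1), if i < g then min (s i) (N : ℤ) else 0 := by
    rw [Finset.sum_filter, Finset.sum_range]
    refine Finset.sum_congr rfl fun i _ => ?_
    rw [hs, neg_neg]
  -- the inequality row by row
  have hrow : ∀ i ∈ range (2 * g + 1), (∑ j ∈ range (2 * g + 1),
      if i ≤ j ∧ ¬ (i = g ∧ j = g) then max (s i + s j - 2 * N - 1) 0 else 0) +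
      (if i < g then min (s i) (N : ℤ) else 0) ≤
      ∑ j ∈ range (2 * g + 1), if i < j ∧ i + j < 2 * g then (s i + s j) else 0 := by
    intro i hi
    rw [mem_range] at hi
    have hzero : ∀ j, i ≤ j → j ≤ 2 * g → 2 * g ≤ i + j + 1 →
        max (s i + s j - 2 * N - 1) 0 = 0 := by
      intro j hij hj h1
      apply max_eq_right
      by_cases h2 : 2 * g ≤ i + j
      · have h3 := hanti (2 * g - i) j (by omega) hj
        rw [hrev i (by omega)] at h3
        have : (0 : ℤ) ≤ N := Int.natCast_nonneg _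
        linarith
      · have h3 : j + 1 = 2 * g - i := by omega
        have h4 := hgap j (by omega)
        rw [h3, hrev i (by omega)] at h4
        linarith
    by_cases hig : i < g
    · rw [if_pos hig]
      -- left side
      have hL : ∑ j ∈ range (2 * g + 1), (if i ≤ j ∧ ¬ (i = g ∧ j = g) then
          max (s i + s j - 2 * N - 1) 0 else 0) =
          ∑ j ∈ Ico i (2 * g - i - 1), max (s i + s j - 2 * N - 1) 0 := by
        rw [← Finset.sum_filter]
        symm
        apply Finset.sum_subset
        · intro j hj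
          rw [mem_Ico] at hj
          rw [mem_filter, mem_range]
          omega
        · intro j hj hj'
          rw [mem_filter, mem_range] at hj
          rw [mem_Ico] at hj'
          exact hzero j hj.2.1 (by omega) (by omega)
      have hL2 : ∑ j ∈ Ico i (2 * g - i - 1), max (s i + s j - 2 * N - 1) 0 =
          ∑ j ∈ Ico (i + 1) (2 * g - i), max (s i + s (j - 1) - 2 * N - 1) 0 := by
        have h1 := Finset.sum_Ico_add' (fun j => max (s i + s (j - 1) - 2 * N - 1) 0) i
          (2 * g - i - 1) 1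
        have h2 : 2 * g - i - 1 + 1 = 2 * g - i := by omega
        rw [h2] at h1
        rw [← h1]
        refine Finset.sum_congr rfl fun j _ => ?_
        rw [Nat.add_sub_cancel]
      have hR : ∑ j ∈ range (2 * g + 1), (if i < j ∧ i + j < 2 * g then (s i + s j) else 0) =
          ∑ j ∈ Ico (i + 1) (2 * g - i), (s i + s j) := by
        rw [← Finset.sum_filter]
        refine Finset.sum_congr ?_ fun _ _ => rfl
        ext j
        rw [mem_filter, mem_range, mem_Ico]
        omega
      have hM : min (s i) (N : ℤ) = ∑ j ∈ Ico (i + 1) (2 * g - i),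
          if j = g then min (s i) (N : ℤ) else 0 := by
        rw [Finset.sum_ite_eq' (Ico (i + 1) (2 * g - i)) g, if_pos (mem_Ico.2 (by omega))]
      rw [hL, hL2, hR]
      calc ∑ j ∈ Ico (i + 1) (2 * g - i), max (s i + s (j - 1) - 2 * N - 1) 0 +
            min (s i) (N : ℤ)
          = ∑ j ∈ Ico (i + 1) (2 * g - i), (max (s i + s (j - 1) - 2 * N - 1) 0 +
            if j = g then min (s i) (N : ℤ) else 0) := by
            rw [Finset.sum_add_distrib, ← hM]
        _ ≤ _ := by
            refine Finset.sum_le_sum fun j hj => ?_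
            rw [mem_Ico] at hj
            by_cases hjg : j = g
            · subst hjg
              rw [if_pos rfl, hg]
              have h1 := hmid (j - 1) (by omega)
              have h2 : (0 : ℤ) ≤ N := Int.natCast_nonneg _
              have h3 : 0 ≤ s i := by
                rw [← hg]
                exact hanti i j (by omega) (by omega)
              omega
            · rw [if_neg hjg]
              have h1 := hgap (j - 1) (by omega)
              have h2 : j - 1 + 1 = j := by omega
              rw [h2] at h1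
              have h3 := hanti j (2 * g - i) (by omega) (by omega)
              rw [hrev i (by omega)] at h3
              omega
    · rw [if_neg hig, add_zero]
      have hL : ∑ j ∈ range (2 * g + 1), (if i ≤ j ∧ ¬ (i = g ∧ j = g) then
          max (s i + s j - 2 * N - 1) 0 else 0) = 0 := by
        apply Finset.sum_eq_zero
        intro j hj
        rw [mem_range] at hj
        split_ifs with h1
        · exact hzero j h1.1 (by omega) (by omega)
        · rfl
      have hR : ∑ j ∈ range (2 * g + 1), (if i < j ∧ i + j < 2 * g then (s i + s j) else 0) =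
          0 := by
        apply Finset.sum_eq_zero
        intro j _
        rw [if_neg (by omega)]
      rw [hL, hR]
  have hfin := Finset.sum_le_sum hrow
  rw [Finset.sum_add_distrib] at hfin
  rw [hee2, huu2, hmin]
  linarith

end Pool.Agent.N401.PJ
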